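import Mathlib
import Pool.Agent.Run7.h476.LP.Power
import Pool.Agent.Run7.h476.LP.Part

set_option autoImplicit false

/-!
# Pythagorean triples and long progressions of almost constant colour

Let `V a` (`a` in a finite index set) be sets of positive integers, for instance the classes of a
finite colouring, or some of the classes of an infinite colouring. We know nothing about them except
that at every scale there is ONE long homogeneous progression with almost all its elements in one of
the sets.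

* Let `θ > 0`. There is `η > 0`, depending only on `θ` and the number of sets, such that the
  following holds. Suppose that for arbitrarily large `N₁` and for all `N` in `[N₁, N₁ ^ 2]` there
  are `q ≤ N ^ η`, `A` in `[N, N ^ (1 + η)]` and a set `V a` which contains all but at most
  `A ^ (1 - θ)` of the multiples of `q` in the interval `[A, A + A ^ (1 - η)]`. Then one of the sets
  contains arbitrarily large Pythagorean triples. In other words: if a finite colouring has no large
  monochromatic Pythagorean triples then for every large `N₁` there is a scale `N` in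
  `[N₁, N₁ ^ 2]` at which all progressions of this kind are mixed.

* Let `D` be an ample set: for every `S` the numbers `k` with `k, 2 k, …, S k` in `D` have positive
  lower density along all the sequences of intervals `[A, (1 + δ) A]` (for instance the set of the
  multiples of a fixed number). For all `δ > 0` and `C` there are `ε > 0` and `R` such that the
  following holds. Suppose that for arbitrarily large `N₁` and for all `N` in `[N₁, R N₁]` there are
  `A` in `[N, C N]` and a set `V a` which contains all but at most `ε A` of the elements of `D` in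
  the interval `[A, (1 + δ) A]`. Then one of the sets `D ∩ V a` contains arbitrarily large
  Pythagorean triples.

Proof. Two of `r + 1` well separated scales `A < B` have the same set `V a`. Choose the integer `t`
with `(t ^ 2 - 1) / (2 t)` just above `B / A`, and consider the triples
`(2 t k, (t ^ 2 - 1) k, (t ^ 2 + 1) k)` for all suitable `k` with `2 t k` in an initial part of the
progression at `A`; then the other two members are in the progression at `B`, since they are close
to each other, and there are more such `k` than exceptions.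
-/

namespace Pool.Agent.Results.MP_0f91f8_co.LongProgressions

/-- For all `S` and `δ > 0` there is `ρ > 0` such that for all large `A` there are at least `ρ A`
numbers `k` in `[A, (1 + δ) A]` with `k, 2 k, …, S k` in `D`. -/
def Ample (D : Set ℕ) : Prop :=
  ∀ (S : ℕ) (δ : ℝ), 0 < δ → ∃ ρ : ℝ, 0 < ρ ∧ ∃ A₀ : ℕ, ∀ A ≥ A₀,
    ρ * A ≤ ({k : ℕ | A ≤ k ∧ (k : ℝ) ≤ (1 + δ) * A ∧ ∀ s, 0 < s → s ≤ S → s * k ∈ D}.ncard : ℝ)

/-- `V` contains arbitrarily large Pythagorean triples. -/
def HasTriples (V : Set ℕ) : Prop :=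
  ∀ K : ℕ, ∃ x ∈ V, ∃ y ∈ V, ∃ z ∈ V, K < x ∧ K < y ∧ K < z ∧ x ^ 2 + y ^ 2 = z ^ 2

/-- See the description of the two parts above. -/
theorem result (κ : Type*) [Finite κ] :
    (∀ θ : ℝ, 0 < θ → ∃ η : ℝ, 0 < η ∧ ∀ V : κ → Set ℕ,
      (∀ N₀ : ℕ, ∃ N₁ ≥ N₀, ∀ N : ℕ, N₁ ≤ N → N ≤ N₁ ^ 2 → ∃ (q A : ℕ) (a : κ),
        0 < q ∧ (q : ℝ) ≤ (N : ℝ) ^ η ∧ N ≤ A ∧ (A : ℝ) ≤ (N : ℝ) ^ (1 + η) ∧
        ({n : ℕ | q ∣ n ∧ A ≤ n ∧ (n : ℝ) ≤ A + (A : ℝ) ^ (1 - η) ∧ n ∉ V a}.ncard : ℝ) ≤
          (A : ℝ) ^ (1 - θ)) →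
      ∃ a, HasTriples (V a)) ∧
    (∀ D : Set ℕ, Ample D → ∀ δ : ℝ, 0 < δ → ∀ C : ℕ, ∃ ε : ℝ, 0 < ε ∧ ∃ R : ℕ,
      ∀ V : κ → Set ℕ,
      (∀ N₀ : ℕ, ∃ N₁ ≥ N₀, ∀ N : ℕ, N₁ ≤ N → N ≤ R * N₁ → ∃ (A : ℕ) (a : κ),
        N ≤ A ∧ A ≤ C * N ∧
        ({n : ℕ | A ≤ n ∧ (n : ℝ) ≤ (1 + δ) * A ∧ n ∈ D ∧ n ∉ V a}.ncard : ℝ) ≤ ε * A) →
      ∃ a, HasTriples (D ∩ V a)) :=
  ⟨fun θ hθ => Run7.h476.LP.power θ hθ,
    fun D hD δ hδ C => Run7.h476.LP.thick D hD δ hδ C⟩

/-- Sanity check, not part of the result: the multiples of a fixed number form an ample set. -/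
theorem ample_multiples (q : ℕ) (hq : 0 < q) : Ample {n : ℕ | q ∣ n} := by
  intro S δ hδ
  refine ⟨δ / (2 * q), by positivity, ⌈2 * (2 * q : ℝ) / δ⌉₊ + 1, fun A hA => ?_⟩
  have hqr : (0 : ℝ) < q := by exact_mod_cast hq
  have hA' : (2 * (2 * q : ℝ)) ≤ δ * A := by
    have h1 : (2 * (2 * q : ℝ)) / δ ≤ A := (Nat.le_ceil _).trans (by
      exact_mod_cast (Nat.le_succ _).trans hA)
    rw [div_le_iff₀ hδ] at h1
    linarith
  set m := ⌊δ * A / q⌋₊ with hm
  have hm1 := Nat.lt_floor_add_one (δ * A / q)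
  have hm2 : (m : ℝ) ≤ δ * A / q := Nat.floor_le (by positivity)
  have hinj : Function.Injective fun i : ℕ => q * (A / q + 1 + i) := by
    intro i j h
    have := Nat.eq_of_mul_eq_mul_left hq h
    omega
  have hfin : {k : ℕ | A ≤ k ∧ (k : ℝ) ≤ (1 + δ) * A ∧ ∀ s, 0 < s → s ≤ S →
      s * k ∈ {n : ℕ | q ∣ n}}.Finite := by
    refine (Set.finite_Iic ⌊(1 + δ) * A⌋₊).subset ?_
    rintro n ⟨-, h, -⟩
    exact Nat.le_floor h
  have hsub : ((Finset.range m).image fun i : ℕ => q * (A / q + 1 + i) : Set ℕ) ⊆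
      {k : ℕ | A ≤ k ∧ (k : ℝ) ≤ (1 + δ) * A ∧ ∀ s, 0 < s → s ≤ S →
        s * k ∈ {n : ℕ | q ∣ n}} := by
    intro k hk
    rw [Finset.mem_coe, Finset.mem_image] at hk
    obtain ⟨i, hi, rfl⟩ := hk
    have hi' := Finset.mem_range.1 hi
    refine ⟨?_, ?_, fun s _ _ => ?_⟩
    · have := Nat.lt_mul_div_succ A hq
      nlinarith
    · have h1 : q * (A / q) ≤ A := Nat.mul_div_le _ _
      have h2 : ((q * (A / q) : ℕ) : ℝ) ≤ A := by exact_mod_cast h1
      have h3 : ((i + 1 : ℕ) : ℝ) ≤ m := by exact_mod_cast hi'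
      push_cast at h2 h3 ⊢
      have h4 : (q : ℝ) * (i + 1) ≤ δ * A := by
        calc (q : ℝ) * (i + 1) ≤ q * (δ * A / q) := by gcongr; linarith
          _ = δ * A := by field_simp
      nlinarith
    · exact Dvd.dvd.mul_left (Dvd.intro _ rfl) s
  have h5 := Set.ncard_le_ncard hsub hfin
  rw [Set.ncard_coe_finset, Finset.card_image_of_injective _ hinj, Finset.card_range] at h5
  have h6 : δ / (2 * q) * A ≤ m := by
    have h7 : δ * A / q = 2 * (δ / (2 * q) * A) := by field_simp
    have h8 : (1 : ℝ) ≤ δ / (2 * q) * A := by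
      rw [div_mul_eq_mul_div, le_div_iff₀ (by positivity)]
      linarith
    linarith
  exact h6.trans (by exact_mod_cast h5)

end Pool.Agent.Results.MP_0f91f8_co.LongProgressions
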