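import Mathlib
import Pool.Agent.Run7.h476.PY.Main

/-!
Finite colourings of the positive integers computed by non-uniform automata which read the digits in
one base `b`, that is, by automata of bounded size whose transitions depend on the position of the
digit in an arbitrary way. More generally, colourings of `[0, b ^ M)` with boundedly many classes of
low parts (or of high parts) at every cut of the digits. The colour may in addition depend in an
arbitrary way on the number of digits and on the number of trailing zeros. All of them have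
monochromatic Pythagorean triples, in a range which depends only on the parameters.
-/

set_option autoImplicit false

namespace Pool.Agent.Results.MP_0f91f8_co.NonuniformAutomata

/-- For every `i ≤ M` the numbers `r < b ^ i` fall into at most `w` classes such that `r`, `r'` in the
same class can be exchanged as the low parts: `h (b ^ i * m + r) = h (b ^ i * m + r')` for all
`m < b ^ (M - i)`. -/
def FewLowParts (b M w : ℕ) {κ : Type} (h : ℕ → κ) : Prop :=
  ∀ i ≤ M, ∃ g : ℕ → Fin w, ∀ r < b ^ i, ∀ r' < b ^ i, g r = g r' →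
    ∀ m < b ^ (M - i), h (b ^ i * m + r) = h (b ^ i * m + r')

/-- For every `i ≤ M` the numbers `m < b ^ (M - i)` fall into at most `w` classes such that `m`, `m'` in
the same class can be exchanged as the high parts: `h (b ^ i * m + r) = h (b ^ i * m' + r)` for all
`r < b ^ i`. -/
def FewHighParts (b M w : ℕ) {κ : Type} (h : ℕ → κ) : Prop :=
  ∀ i ≤ M, ∃ g : ℕ → Fin w, ∀ m < b ^ (M - i), ∀ m' < b ^ (M - i), g m = g m' →
    ∀ r < b ^ i, h (b ^ i * m + r) = h (b ^ i * m' + r)

/-- The number of digits of `n` in base `b`. -/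
def numDigits (b n : ℕ) : ℕ := (Nat.digits b n).length

/-- The number of trailing zeros of `n` in base `b`: the largest `t` with `b ^ t ∣ n`. -/
noncomputable def trailingZeros (b n : ℕ) : ℕ := multiplicity b n

/-- The state after reading a list of digits from its first element (at the position `i`) on; the digit
`c` at the position `j` takes the state `q` to `δ j q c`. -/
def readUp {Q : Type} (δ : ℕ → Q → ℕ → Q) : ℕ → List ℕ → Q → Q
  | _, [], q => q
  | i, c :: l, q => readUp δ (i + 1) l (δ i q c)

/-- The state after reading a list of digits from its last element down to its first element (at the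
position `i`); the digit `c` at the position `j` takes the state `q` to `δ j q c`. -/
def readDown {Q : Type} (δ : ℕ → Q → ℕ → Q) : ℕ → List ℕ → Q → Q
  | _, [], q => q
  | i, c :: l, q => δ i (readDown δ (i + 1) l q) c

/-- The colour of `n`: an arbitrary function `F` of the number of digits, the number of trailing zeros,
the state of a non-uniform automaton which reads the digits of `n` from the least significant one on
and the state of a non-uniform automaton which reads them from the most significant one on. -/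
noncomputable def colour {Q R C : Type} (b : ℕ) (δ : ℕ → Q → ℕ → Q) (q₀ : Q)
    (ε : ℕ → R → ℕ → R) (r₀ : R) (F : ℕ → ℕ → Q → R → C) (n : ℕ) : C :=
  F (numDigits b n) (trailingZeros b n) (readUp δ 0 (Nat.digits b n) q₀)
    (readDown ε 0 (Nat.digits b n) r₀)

lemma readUp_eq {Q : Type} (δ : ℕ → Q → ℕ → Q) (l : List ℕ) : ∀ (i : ℕ) (q : Q),
    readUp δ i l q = Pool.Agent.Run7.h476.PY.up δ i l q := by
  induction l with
  | nil => intro i q; rfl
  | cons c l ih => intro i q; exact ih (i + 1) (δ i q c)

lemma readDown_eq {Q : Type} (δ : ℕ → Q → ℕ → Q) (l : List ℕ) : ∀ (i : ℕ) (q : Q),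
    readDown δ i l q = Pool.Agent.Run7.h476.PY.down δ i l q := by
  induction l with
  | nil => intro i q; rfl
  | cons c l ih => intro i q; exact congrArg (fun s => δ i s c) (ih (i + 1) q)

theorem result (b : ℕ) (hb : 2 ≤ b) (P : ℕ) :
    -- (1) colourings with few classes of low parts or few classes of high parts
    (∀ w k l : ℕ, ∃ M₀ : ℕ, ∀ M, M₀ ≤ M → ∀ h : ℕ → Fin k,
      (FewLowParts b M w h ∨ FewHighParts b M w h) → ∀ F : ℕ → ℕ → Fin k → Fin l,
      ∃ x y z : ℕ, 0 < x ∧ 0 < y ∧ x ^ 2 + y ^ 2 = z ^ 2 ∧ z < b ^ M₀ ∧ P * y ≤ x ∧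
        F (numDigits b x) (trailingZeros b x) (h x)
          = F (numDigits b y) (trailingZeros b y) (h y) ∧
        F (numDigits b y) (trailingZeros b y) (h y)
          = F (numDigits b z) (trailingZeros b z) (h z)) ∧
    -- (2) colourings computed by non-uniform automata
    (∀ (Q R C : Type) [Finite Q] [Finite R] [Finite C], ∃ M : ℕ, ∀ (δ : ℕ → Q → ℕ → Q) (q₀ : Q)
      (ε : ℕ → R → ℕ → R) (r₀ : R) (F : ℕ → ℕ → Q → R → C) (J : ℕ),
      ∃ x y z : ℕ, 0 < x ∧ 0 < y ∧ x ^ 2 + y ^ 2 = z ^ 2 ∧ z < b ^ (J + M) ∧ P * y ≤ x ∧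
        b ^ J ∣ x ∧ b ^ J ∣ y ∧ b ^ J ∣ z ∧
        colour b δ q₀ ε r₀ F x = colour b δ q₀ ε r₀ F y ∧
        colour b δ q₀ ε r₀ F y = colour b δ q₀ ε r₀ F z) := by
  refine ⟨fun w k l => ?_, fun Q R C _ _ _ => ?_⟩
  · rcases Nat.eq_zero_or_pos k with rfl | hk
    · exact ⟨0, fun _ _ h => (h 0).elim0⟩
    rcases Nat.eq_zero_or_pos w with rfl | hw
    · refine ⟨0, fun M _ h hh => ?_⟩
      rcases hh with hh | hh
      · obtain ⟨g, _⟩ := hh 0 (Nat.zero_le _)
        exact (g 0).elim0
      · obtain ⟨g, _⟩ := hh 0 (Nat.zero_le _)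
        exact (g 0).elim0
    have : Nonempty (Fin k) := ⟨⟨0, hk⟩⟩
    have : Nonempty (Fin w) := ⟨⟨0, hw⟩⟩
    obtain ⟨M₁, h₁⟩ := Pool.Agent.Run7.h476.PY.width_core b P hb (Fin w) (Fin k) (Fin l)
    obtain ⟨M₂, h₂⟩ := Pool.Agent.Run7.h476.PY.width_core b P hb (Fin w → Fin k) (Fin k) (Fin l)
    refine ⟨max M₁ M₂, fun M hM h hh F => ?_⟩
    have hb0 : 0 < b := by omega
    rcases hh with hh | hh
    · obtain ⟨x, y, z, a1, a2, a3, a4, a5, a6, a7⟩ :=
        h₁ M (le_trans (le_max_left _ _) hM) h hh F
      exact ⟨x, y, z, a1, a2, a3,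
        a4.trans_le (Nat.pow_le_pow_right hb0 (le_max_left _ _)), a5, a6, a7⟩
    · obtain ⟨x, y, z, a1, a2, a3, a4, a5, a6, a7⟩ :=
        h₂ M (le_trans (le_max_right _ _) hM) h (Pool.Agent.Run7.h476.PY.low_of_high hh) F
      exact ⟨x, y, z, a1, a2, a3,
        a4.trans_le (Nat.pow_le_pow_right hb0 (le_max_right _ _)), a5, a6, a7⟩
  · rcases isEmpty_or_nonempty Q with hQ | hQ
    · exact ⟨0, fun _ q₀ => hQ.elim q₀⟩
    have : Nonempty (R → R) := ⟨id⟩
    obtain ⟨M, hM⟩ := Pool.Agent.Run7.h476.PY.autom b P hb (Q × (R → R)) C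
    refine ⟨M, fun δ q₀ ε r₀ F J => ?_⟩
    obtain ⟨x, y, z, a1, a2, a3, a4, a5, a6, a7, a8, a9, a10⟩ :=
      hM (fun i (t : Q × (R → R)) c => (δ i t.1 c, fun r => t.2 (ε i r c))) (q₀, id)
        (fun s t u => F s t u.1 (u.2 r₀)) J
    refine ⟨x, y, z, a1, a2, a3, a4, a5, a6, a7, a8, ?_, ?_⟩
    · simp only [Pool.Agent.Run7.h476.PY.up_down] at a9
      unfold colour
      rw [readUp_eq, readUp_eq, readDown_eq, readDown_eq]
      exact a9
    · simp only [Pool.Agent.Run7.h476.PY.up_down] at a10
      unfold colour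
      rw [readUp_eq, readUp_eq, readDown_eq, readDown_eq]
      exact a10

end Pool.Agent.Results.MP_0f91f8_co.NonuniformAutomata
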