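import Pool.Agent.Run7.h605.PY.SmoothThin
import Pool.Agent.Run7.h605.PY.Shape

/-!
# Thin, sparse and random families of primitive Pythagorean triples

Call a set `S` of triples thin if some finite colouring of the positive integers has no
monochromatic multiple `(k a, k b, k c)` of a triple `(a, b, c)` in `S`. Q1 says that the set `Prim` of
all primitive Pythagorean triples is not thin. We show that Q1 is equivalent to formally much
stronger statements.

(1) A union of two sets is thin if and only if both are thin. Thin are: finite sets of primitive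
triples; the primitive triples with `min (a, b) > ε c`; those for which `f a - f c` or `f b - f c` is
not in `U`, for any completely additive `f` into a compact abelian group and any neighbourhood `U` of
`0` (for instance: some `p`-adic valuation of `a`, `b` or `c` is not divisible by `m`); the primitive
triples in which `a`, `b` or `c` is a prime; and those for which `a b c` has a prime factor `q ≥ c / B`.
(2) So Q1 is equivalent to its form for the primitive triples which avoid all these families.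
(3) Q1 is equivalent to the existence of arbitrarily sparse sequences of finite sets of primitive
triples, the `j`-th of which has a monochromatic multiple in all colourings with `j` colours.
(4) Q1 is equivalent to its random form: there are probabilities `q c → 0` such that a random set of
primitive triples which contains every `(a, b, c)`, independently, with probability at least `q c`,
is almost surely not thin. The same for every fixed probability.

Proof. (1) Product colourings; compactness of the group; for the prime members a completely additive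
function with values in `ℤ/2` is defined prime by prime: if `p` is a hypotenuse, then the legs are
unique and smaller than `p`; if `p` is a leg, the other leg is `(p² - 1) / 2 = (p - 1) (p + 1) / 2`, and
its prime factors are smaller than `p`. If `q > 2 B` is a prime factor of `a b c` and `c ≤ B q` then
`c = q s`, `s ≤ B`, all prime factors of the legs are smaller than `q`, and there are at most
`4 (2 B² + 1)` such triples for given `q` and `s`; so a completely additive function with values in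
`ℤ/M`, `M` depending on `B` only, can be chosen with `f a ≠ f c` for all of them. (3) Compactness and (1). (4) If a finite set `E` is good for
`r ^ m` colours then one part of each partition of `E` into `m` parts is good for `r` colours; so, by
symmetry and a coupling, a random subset with probabilities at least `1 / m` is good for `r` colours
with probability at least `1 / m`; and one takes infinitely many disjoint sets `E`, `m` growing slowly.
-/

set_option autoImplicit false

namespace Pool.Agent.Results.MP_0f91f8_co.RandomAndThinFamilies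

open MeasureTheory ProbabilityTheory Filter

/-- Q1: every finite colouring has a monochromatic Pythagorean triple -/
def Question : Prop := ∀ r : ℕ, ∀ c : ℕ → Fin r, ∃ x y z : ℕ, 0 < x ∧ 0 < y ∧ 0 < z ∧
  x ^ 2 + y ^ 2 = z ^ 2 ∧ c x = c y ∧ c y = c z

/-- the primitive Pythagorean triples `(a, b, c)` -/
def Prim : Set (ℕ × ℕ × ℕ) :=
  {t | 0 < t.1 ∧ 0 < t.2.1 ∧ t.1 ^ 2 + t.2.1 ^ 2 = t.2.2 ^ 2 ∧ Nat.Coprime t.1 t.2.1}

/-- some multiple `(k a, k b, k c)`, `k ≥ 1`, of the triple `t = (a, b, c)` is monochromatic -/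
def Hits {r : ℕ} (χ : ℕ → Fin r) (t : ℕ × ℕ × ℕ) : Prop :=
  ∃ k : ℕ, 1 ≤ k ∧ χ (k * t.1) = χ (k * t.2.2) ∧ χ (k * t.2.1) = χ (k * t.2.2)

/-- some finite colouring has no monochromatic multiple of a triple in `S` -/
def Thin (S : Set (ℕ × ℕ × ℕ)) : Prop :=
  ∃ (r : ℕ) (χ : ℕ → Fin r), ∀ t ∈ S, ¬ Hits χ t

theorem thin_iff (S : Set (ℕ × ℕ × ℕ)) : Thin S ↔ ¬ Run7.h605.PY.Regular S := by
  constructor
  · rintro ⟨r, χ, h⟩ h1
    obtain ⟨t, ht, k, hk, hm⟩ := h1 r χ
    exact h t ht ⟨k, hk, hm⟩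
  · intro h
    unfold Run7.h605.PY.Regular Run7.h605.PY.Reg at h
    push Not at h
    obtain ⟨r, χ, h⟩ := h
    exact ⟨r, χ, fun t ht ⟨k, hk, hm⟩ => h t ht k hk hm⟩

theorem not_thin_iff (S : Set (ℕ × ℕ × ℕ)) : ¬ Thin S ↔ Run7.h605.PY.Regular S := by
  rw [thin_iff, not_not]

theorem q_iff : Question ↔ Run7.h605.PY.Regular Prim := Run7.h605.PY.question_iff

/-- the deterministic family -/
theorem const_model {P : (Ω : Type) → [MeasurableSpace Ω] → Measure Ω →
    (ℕ × ℕ × ℕ → Ω → Bool) → Prop}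
    (hP : ∀ (X : ℕ × ℕ × ℕ → Unit → Bool), (∀ t ω, X t ω = true) → P Unit (Measure.dirac ()) X)
    (h : ∀ (Ω : Type) [MeasurableSpace Ω] (μ : Measure Ω) [IsProbabilityMeasure μ]
      (X : ℕ × ℕ × ℕ → Ω → Bool), (∀ t, Measurable (X t)) → iIndepFun X μ → P Ω μ X →
      ∀ᵐ ω ∂μ, ¬ Thin {t | t ∈ Prim ∧ X t ω = true}) : Question := by
  have h1 := h Unit (Measure.dirac ()) (fun _ _ => true) (fun _ => measurable_const)
    (iIndepFun_iff_measure_inter_preimage_eq_mul.2 (by
      intro S sets _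
      classical
      have h2 : ∀ i : ℕ × ℕ × ℕ, (Measure.dirac ()) ((fun _ : Unit => true) ⁻¹' sets i) =
          if true ∈ sets i then 1 else 0 := by
        intro i
        by_cases hi : true ∈ sets i
        · simp [hi]
        · simp [hi]
      have h3 : (⋂ i ∈ S, (fun _ : Unit => true) ⁻¹' sets i) =
          if (∀ i ∈ S, true ∈ sets i) then Set.univ else ∅ := by
        ext ω
        split_ifs with h4
        · simpa using h4
        · simpa using h4
      simp only [h2]
      rw [h3]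
      split_ifs with h4
      · rw [measure_univ, Finset.prod_eq_one fun i hi => if_pos (h4 i hi)]
      · push Not at h4
        obtain ⟨i, hi, h5⟩ := h4
        rw [measure_empty, Finset.prod_eq_zero hi (if_neg h5)]))
    (hP _ fun _ _ => rfl)
  rw [q_iff, ← not_thin_iff]
  have h2 : ∃ ω : Unit, ¬ Thin {t | t ∈ Prim ∧ true = true} := h1.exists
  obtain ⟨-, h3⟩ := h2
  simpa using h3

/-- **Thin, sparse and random families of primitive Pythagorean triples.**

(1) `S ∪ T` is thin if and only if `S` and `T` are. Thin are all finite sets of primitive triples, the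
primitive triples with `min (a, b) > ε c`, those for which `f a - f c` or `f b - f c` is not in the
neighbourhood `U` of `0`, `f` completely additive with values in a compact group, those in which
`a`, `b` or `c` is a prime, and those for which some prime factor `q` of `a b c` satisfies `c ≤ B q`.
(2) Q1 holds if and only if every finite colouring has, for all `N`, `B`, `ε > 0`, `f` and `U`, a
monochromatic `(k a, k b, k c)`, `(a, b, c)` primitive, `c > N`, `min (a, b) ≤ ε c`, none of `a`, `b`, `c`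
a prime, `B q < c` for all prime factors `q` of `a b c`, `f a - f c ∈ U` and `f b - f c ∈ U`.
(3) Q1 holds if and only if for every function `g` there are finite sets `E j` of primitive triples,
with `c' > g c` for the hypotenuses in `E i` and `E j`, `i < j`, such that every colouring with `j`
colours has a monochromatic multiple of a triple in `E j`.
(4) Q1 holds if and only if there are `q n > 0`, `q n → 0`, such that every random set of primitive
triples which contains the triples `(a, b, c)` with large `c` independently with probability at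
least `q c` is almost surely not thin.
(5) Let `0 < p ≤ 1`. Q1 holds if and only if every random set which contains all primitive triples
independently with probability at least `p` is almost surely not thin. -/
theorem result :
    ((∀ S T, Thin (S ∪ T) ↔ Thin S ∧ Thin T) ∧
      (∀ F ⊆ Prim, F.Finite → Thin F) ∧
      (∀ ε : ℝ, 0 < ε → Thin {t | t ∈ Prim ∧ ε * t.2.2 < (min t.1 t.2.1 : ℕ)}) ∧
      (∀ (K : Type) [AddCommGroup K] [TopologicalSpace K] [IsTopologicalAddGroup K]
        [CompactSpace K] (f : ℕ → K), (∀ m n, 0 < m → 0 < n → f (m * n) = f m + f n) →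
        ∀ U ∈ nhds (0 : K),
          Thin {t | t ∈ Prim ∧ ¬ (f t.1 - f t.2.2 ∈ U ∧ f t.2.1 - f t.2.2 ∈ U)}) ∧
      Thin {t | t ∈ Prim ∧ (t.1.Prime ∨ t.2.1.Prime ∨ t.2.2.Prime)} ∧
      ∀ B : ℕ, Thin {t | t ∈ Prim ∧ ∃ q : ℕ, q.Prime ∧ q ∣ t.1 * t.2.1 * t.2.2 ∧
        t.2.2 ≤ B * q}) ∧
    (Question ↔ ∀ (r : ℕ) (χ : ℕ → Fin r) (N B : ℕ) (ε : ℝ), 0 < ε →
      ∀ (K : Type) [AddCommGroup K] [TopologicalSpace K] [IsTopologicalAddGroup K]
        [CompactSpace K] (f : ℕ → K), (∀ m n, 0 < m → 0 < n → f (m * n) = f m + f n) →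
        ∀ U ∈ nhds (0 : K), ∃ t ∈ Prim, Hits χ t ∧ N < t.2.2 ∧
          (min t.1 t.2.1 : ℕ) ≤ ε * t.2.2 ∧ ¬ t.1.Prime ∧ ¬ t.2.1.Prime ∧ ¬ t.2.2.Prime ∧
          (∀ q : ℕ, q.Prime → q ∣ t.1 * t.2.1 * t.2.2 → B * q < t.2.2) ∧
          f t.1 - f t.2.2 ∈ U ∧ f t.2.1 - f t.2.2 ∈ U) ∧
    (Question ↔ ∀ g : ℕ → ℕ, ∃ E : ℕ → Finset (ℕ × ℕ × ℕ),
      (∀ j, ↑(E j) ⊆ Prim ∧ ∀ χ : ℕ → Fin j, ∃ t ∈ E j, Hits χ t) ∧
      ∀ i j, i < j → ∀ s ∈ E i, ∀ t ∈ E j, g s.2.2 < t.2.2) ∧
    (Question ↔ ∃ q : ℕ → ℝ, (∀ n, 0 < q n ∧ q n ≤ 1) ∧ Tendsto q atTop (nhds 0) ∧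
      ∀ (Ω : Type) [MeasurableSpace Ω] (μ : Measure Ω) [IsProbabilityMeasure μ]
        (X : ℕ × ℕ × ℕ → Ω → Bool), (∀ t, Measurable (X t)) → iIndepFun X μ →
        (∃ C, ∀ t ∈ Prim, C ≤ t.2.2 → q t.2.2 ≤ μ.real {ω | X t ω = true}) →
        ∀ᵐ ω ∂μ, ¬ Thin {t | t ∈ Prim ∧ X t ω = true}) ∧
    ∀ p : ℝ, 0 < p → p ≤ 1 → (Question ↔
      ∀ (Ω : Type) [MeasurableSpace Ω] (μ : Measure Ω) [IsProbabilityMeasure μ]
        (X : ℕ × ℕ × ℕ → Ω → Bool), (∀ t, Measurable (X t)) → iIndepFun X μ →
        (∀ t ∈ Prim, p ≤ μ.real {ω | X t ω = true}) →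
        ∀ᵐ ω ∂μ, ¬ Thin {t | t ∈ Prim ∧ X t ω = true}) := by
  have hrandom : Question → ∃ q : ℕ → ℝ, (∀ n, 0 < q n ∧ q n ≤ 1) ∧ Tendsto q atTop (nhds 0) ∧
      ∀ (Ω : Type) [MeasurableSpace Ω] (μ : Measure Ω) [IsProbabilityMeasure μ]
        (X : ℕ × ℕ × ℕ → Ω → Bool), (∀ t, Measurable (X t)) → iIndepFun X μ →
        (∃ C, ∀ t ∈ Prim, C ≤ t.2.2 → q t.2.2 ≤ μ.real {ω | X t ω = true}) →
        ∀ᵐ ω ∂μ, ¬ Thin {t | t ∈ Prim ∧ X t ω = true} := by
    intro h
    obtain ⟨q, h1, h2, h3⟩ := Run7.h605.PY.random (q_iff.1 h)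
    refine ⟨q, h1, h2, fun Ω _ μ _ X hm hi hC => ?_⟩
    filter_upwards [h3 Ω μ X hm hi hC] with ω hω
    exact (not_thin_iff _).2 hω
  refine ⟨⟨fun S T => ⟨fun h => ⟨?_, ?_⟩, fun h => ?_⟩, fun F hF hfin => ?_, fun ε hε => ?_,
    fun K _ _ _ _ f hf U hU => ?_, ?_, fun B => ?_⟩,
    ⟨fun h r χ N B ε hε K _ _ _ _ f hf U hU => ?_, fun h => ?_⟩,
    ⟨fun h g => ?_, fun h => ?_⟩, ⟨hrandom, fun h => ?_⟩, fun p hp hp1 => ⟨fun h => ?_, fun h => ?_⟩⟩
  · rw [thin_iff] at h ⊢
    exact Run7.h605.PY.thin_mono h Set.subset_union_left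
  · rw [thin_iff] at h ⊢
    exact Run7.h605.PY.thin_mono h Set.subset_union_right
  · rw [thin_iff, thin_iff] at h
    rw [thin_iff]
    exact Run7.h605.PY.thin_union h.1 h.2
  · rw [thin_iff]
    exact Run7.h605.PY.thin_prim_finite hfin hF
  · rw [thin_iff]
    exact Run7.h605.PY.thin_shape hε
  · rw [thin_iff]
    exact Run7.h605.PY.thin_bohr f hf U hU
  · rw [thin_iff]
    exact Run7.h605.PY.thin_prime
  · rw [thin_iff]
    exact Run7.h605.PY.thin_smooth B
  · have h1 := ((((q_iff.1 h).sdiff (Run7.h605.PY.thin_prim_finite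
      (Run7.h605.PY.prim_finite N) fun t ht => ht.1)).sdiff
      (Run7.h605.PY.thin_shape hε)).sdiff Run7.h605.PY.thin_prime).sdiff
      (Run7.h605.PY.thin_smooth B)
    obtain ⟨t, ht, k, hk, hm⟩ := (h1.sdiff (Run7.h605.PY.thin_bohr f hf U hU)) r χ
    obtain ⟨⟨⟨⟨⟨h2, h3⟩, h4⟩, h5⟩, h7⟩, h6⟩ := ht
    have h3' : N < t.2.2 := by
      by_contra hh
      exact h3 ⟨h2, by omega⟩
    have h4' : (min t.1 t.2.1 : ℕ) ≤ ε * t.2.2 := by
      by_contra hh
      exact h4 ⟨h2, not_le.1 hh⟩
    have h5' : ¬ (t.1.Prime ∨ t.2.1.Prime ∨ t.2.2.Prime) := fun hh => h5 ⟨h2, hh⟩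
    have h6' : f t.1 - f t.2.2 ∈ U ∧ f t.2.1 - f t.2.2 ∈ U := by
      by_contra hh
      exact h6 ⟨h2, hh⟩
    have h7' : ∀ q : ℕ, q.Prime → q ∣ t.1 * t.2.1 * t.2.2 → B * q < t.2.2 := by
      intro q hq hd
      by_contra hh
      exact h7 ⟨h2, q, hq, hd, by omega⟩
    push Not at h5'
    exact ⟨t, h2, ⟨k, hk, hm⟩, h3', h4', h5'.1, h5'.2.1, h5'.2.2, h7', h6'.1, h6'.2⟩
  · rw [q_iff]
    intro r χ
    obtain ⟨t, ht, ⟨k, hk, hm⟩, -⟩ := h r χ 0 0 1 one_pos Unit (fun _ => ()) (fun _ _ _ _ => rfl)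
      Set.univ univ_mem
    exact ⟨t, ht, k, hk, hm⟩
  · obtain ⟨E, h1, h2⟩ := Run7.h605.PY.sparse (q_iff.1 h) g
    refine ⟨E, fun j => ⟨(h1 j).1, fun χ => ?_⟩, h2⟩
    obtain ⟨t, ht, k, hk, hm⟩ := (h1 j).2 χ
    exact ⟨t, Finset.mem_coe.1 ht, k, hk, hm⟩
  · rw [q_iff]
    intro r χ
    obtain ⟨E, h1, -⟩ := h id
    obtain ⟨t, ht, k, hk, hm⟩ := (h1 r).2 χ
    exact ⟨t, (h1 r).1 (Finset.mem_coe.2 ht), k, hk, hm⟩
  · obtain ⟨q, h1, -, h3⟩ := h
    refine const_model (P := fun Ω _ μ X => ∃ C, ∀ t ∈ Prim, C ≤ t.2.2 →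
      q t.2.2 ≤ μ.real {ω | X t ω = true}) (fun X hX => ⟨0, fun t _ _ => ?_⟩) h3
    have h4 : {ω | X t ω = true} = Set.univ := by
      ext ω
      simp [hX]
    rw [h4, probReal_univ]
    exact (h1 _).2
  · intro Ω _ μ _ X hm hi hpt
    obtain ⟨q, h1, h2, h3⟩ := hrandom h
    refine h3 Ω μ X hm hi ?_
    obtain ⟨C, hC⟩ := eventually_atTop.1 (h2.eventually_le_const hp)
    exact ⟨C, fun t ht htC => (hC _ htC).trans (hpt t ht)⟩
  · refine const_model (P := fun Ω _ μ X => ∀ t ∈ Prim, p ≤ μ.real {ω | X t ω = true})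
      (fun X hX t _ => ?_) h
    have h4 : {ω | X t ω = true} = Set.univ := by
      ext ω
      simp [hX]
    rw [h4, probReal_univ]
    exact hp1

end Pool.Agent.Results.MP_0f91f8_co.RandomAndThinFamilies
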