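import Mathlib
import Pool.Agent.Run7.h476.ZK.Main

/-!
Finite colourings of the positive integers computed by automata which read Zeckendorf expansions
(expansions in distinct non-consecutive Fibonacci numbers), also by non-uniform automata, whose
transitions depend on the position of the digit in an arbitrary way. The colour may in addition
depend in an arbitrary way on the highest and the lowest index of the expansion. All these colourings
have arbitrarily large monochromatic Pythagorean triples, in a range which depends only on the sizes.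

The triples are integer multiples of one number, `x = u(t) m`, `y = v(t) m`, `z = w(t) m`, with
palindromic polynomials `u, v, w`, expanded in Lucas numbers by `L_n L_m = L_(m + n) + L_(m - n)` for
even `n`; multiples of Lucas numbers by small coefficients have Zeckendorf expansions which are
shifts of finitely many words.
-/

set_option autoImplicit false

namespace Pool.Agent.Results.MP_0f91f8_co.ZeckendorfAutomata

/-- The digit of the Zeckendorf expansion of `n` at the index `i`: it is `1` if the Fibonacci number
`F_i` occurs in the expansion (`Nat.zeckendorf n` is the decreasing list of these indices). -/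
def digit (n i : ℕ) : ℕ := if i ∈ Nat.zeckendorf n then 1 else 0

/-- The highest index of the Zeckendorf expansion. -/
def highest (n : ℕ) : ℕ := (Nat.zeckendorf n).headD 0

/-- The lowest index of the Zeckendorf expansion. -/
def lowest (n : ℕ) : ℕ := (Nat.zeckendorf n).getLastD 0

/-- The digits of `n`, from the index `0` up to the highest index. -/
def digits (n : ℕ) : List ℕ := (List.range (highest n + 1)).map (digit n)

/-- The state after reading a list of digits from its first element (at the position `i`) on; the digit
`c` at the position `j` takes the state `q` to `δ j q c`. -/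
def readUp {Q : Type} (δ : ℕ → Q → ℕ → Q) : ℕ → List ℕ → Q → Q
  | _, [], q => q
  | i, c :: l, q => readUp δ (i + 1) l (δ i q c)

/-- The state after reading a list of digits from its last element down to its first element (at the
position `i`); the digit `c` at the position `j` takes the state `q` to `δ j q c`. -/
def readDown {Q : Type} (δ : ℕ → Q → ℕ → Q) : ℕ → List ℕ → Q → Q
  | _, [], q => q
  | i, c :: l, q => δ i (readDown δ (i + 1) l q) c

/-- The colour of `n`: an arbitrary function `F` of the highest index, the lowest index, the state of a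
non-uniform automaton which reads the Zeckendorf digits of `n` upwards and the state of a non-uniform
automaton which reads them downwards. -/
def colour {Q R C : Type} (δ : ℕ → Q → ℕ → Q) (q₀ : Q) (ε : ℕ → R → ℕ → R) (r₀ : R)
    (F : ℕ → ℕ → Q → R → C) (n : ℕ) : C :=
  F (highest n) (lowest n) (readUp δ 0 (digits n) q₀) (readDown ε 0 (digits n) r₀)

lemma readUp_eq {Q : Type} (δ : ℕ → Q → ℕ → Q) (l : List ℕ) : ∀ (i : ℕ) (q : Q),
    readUp δ i l q = Pool.Agent.Run7.h476.PY.up δ i l q := by
  induction l with
  | nil => intro i q; rfl
  | cons c l ih => intro i q; exact ih (i + 1) (δ i q c)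

lemma readDown_eq {Q : Type} (δ : ℕ → Q → ℕ → Q) (l : List ℕ) : ∀ (i : ℕ) (q : Q),
    readDown δ i l q = Pool.Agent.Run7.h476.PY.down δ i l q := by
  induction l with
  | nil => intro i q; rfl
  | cons c l ih => intro i q; exact congrArg (fun s => δ i s c) (ih (i + 1) q)

lemma digits_eq (n : ℕ) : digits n = Pool.Agent.Run7.h476.ZK.word n := rfl

/-- For finite sets `Q`, `R` of states and a finite set `C` of colours there is `M` such that for all
non-uniform automata, all `F` and all `J` the colouring has a monochromatic Pythagorean triple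
`x, y, z ≥ J` with `z < F_(M (J + 1))`. -/
theorem result (Q R C : Type) [Finite Q] [Finite R] [Finite C] : ∃ M : ℕ,
    ∀ (δ : ℕ → Q → ℕ → Q) (q₀ : Q) (ε : ℕ → R → ℕ → R) (r₀ : R) (F : ℕ → ℕ → Q → R → C) (J : ℕ),
      ∃ x y z : ℕ, 0 < x ∧ 0 < y ∧ J ≤ x ∧ J ≤ y ∧ x ^ 2 + y ^ 2 = z ^ 2 ∧
        z < Nat.fib (M * (J + 1)) ∧
        colour δ q₀ ε r₀ F x = colour δ q₀ ε r₀ F y ∧
        colour δ q₀ ε r₀ F y = colour δ q₀ ε r₀ F z := by
  rcases isEmpty_or_nonempty Q with hQ | hQ
  · exact ⟨0, fun _ q₀ => hQ.elim q₀⟩
  have : Nonempty (R → R) := ⟨id⟩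
  obtain ⟨M, -, hM⟩ := Pool.Agent.Run7.h476.ZK.zautom (Q × (R → R)) C
  refine ⟨M, fun δ q₀ ε r₀ F J => ?_⟩
  obtain ⟨x, y, z, ⟨a1, a2, -⟩, ⟨b1, b2, -⟩, a5, a6, a9, a10⟩ :=
    hM (fun i (t : Q × (R → R)) c => (δ i t.1 c, fun r => t.2 (ε i r c))) (q₀, id)
      (fun s t u => F s t u.1 (u.2 r₀)) J
  refine ⟨x, y, z, b1, b2, a1, a2, a5, a6, ?_, ?_⟩
  · simp only [Pool.Agent.Run7.h476.PY.up_down] at a9
    unfold colour
    rw [readUp_eq, readUp_eq, readDown_eq, readDown_eq, digits_eq, digits_eq]
    exact a9
  · simp only [Pool.Agent.Run7.h476.PY.up_down] at a10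
    unfold colour
    rw [readUp_eq, readUp_eq, readDown_eq, readDown_eq, digits_eq, digits_eq]
    exact a10

end Pool.Agent.Results.MP_0f91f8_co.ZeckendorfAutomata
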